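import Pool.Agent.Lib.MP_2194ec_nt.Fam.Iface2
import Pool.Agent.Lib.MP_2194ec_nt.H9.Chain
import Pool.Agent.Lib.MP_2194ec_nt.H9.FamMain
import Pool.Agent.Lib.MP_2194ec_nt.SepI

set_option autoImplicit false

/-!
# FAMILY: Theorem L and the absence of periodic curves
-/

namespace Pool.DynLehmerFam

open MvPolynomial IsLocalRing NumberField Pool.DynLehmer

section ow

variable {K : Type} [Field K] [NumberField K]

instance valuationRing_OW (u : FinitePlace K) : ValuationRing (OW u) := by
  rw [ValuationRing.iff_dvd_total]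
  have key : ∀ a b : OW u, b ≠ 0 → u (a : K) ≤ u (b : K) → b ∣ a := by
    intro a b hb hab
    have hb0 : (b : K) ≠ 0 := fun h => hb (Subtype.ext h)
    have hub : 0 < u (b : K) := by
      rcases (apply_nonneg u (b : K)).lt_or_eq with h | h
      · exact h
      · exact absurd ((map_eq_zero u).1 h.symm) hb0
    refine ⟨⟨(a : K) / (b : K), ?_⟩, ?_⟩
    · rw [mem_OW, map_div₀]
      exact (div_le_one hub).2 hab
    · apply Subtype.ext
      rw [Subring.coe_mul]
      field_simp
  refine ⟨fun a b => ?_⟩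
  by_cases hb : b = 0
  · exact Or.inl (hb ▸ dvd_zero a)
  by_cases ha : a = 0
  · exact Or.inr (ha ▸ dvd_zero b)
  rcases le_total (u (a : K)) (u (b : K)) with h | h
  · exact Or.inr (key a b hb h)
  · exact Or.inl (key b a ha h)

instance isFractionRing_OW (u : FinitePlace K) : IsFractionRing (OW u) K := by
  apply IsFractionRing.of_field
  intro z
  by_cases hz : u z ≤ 1
  · exact ⟨⟨z, hz⟩, 1, by simp; rfl⟩
  · have hz0 : z ≠ 0 := by
      rintro rfl
      apply hz
      rw [map_zero]
      exact zero_le_one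
    refine ⟨1, ⟨z⁻¹, ?_⟩, ?_⟩
    · rw [mem_OW, map_inv₀]
      push Not at hz
      exact inv_le_one_of_one_le₀ hz.le
    · rw [map_one, one_div]
      exact (inv_inv z).symm

theorem residue_eq_zero_OW (u : FinitePlace K) (x : OW u) :
    residue (OW u) x = 0 ↔ u (x : K) < 1 := by
  rw [residue_eq_zero_iff, mem_maximalIdeal, mem_nonunits_iff]
  constructor
  · intro h
    by_contra hx
    apply h
    have h1 : u (x : K) = 1 := le_antisymm x.2 (not_lt.1 hx)
    have hx0 : (x : K) ≠ 0 := by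
      intro h0
      rw [h0, map_zero] at h1
      exact zero_ne_one h1
    refine IsUnit.of_mul_eq_one (⟨(x : K)⁻¹, ?_⟩ : OW u) ?_
    · rw [mem_OW, map_inv₀, h1, inv_one]
    · apply Subtype.ext
      rw [Subring.coe_mul]
      exact mul_inv_cancel₀ hx0
  · rintro h ⟨y, rfl⟩
    have h1 : ((y : OW u) : K) * ((y⁻¹ : (OW u)ˣ) : OW u) = 1 := by
      rw [← Subring.coe_mul, Units.mul_inv]
      rfl
    have h2 := congrArg u h1
    rw [map_mul, map_one] at h2
    have h3 : u (((y⁻¹ : (OW u)ˣ) : OW u) : K) ≤ 1 := ((y⁻¹ : (OW u)ˣ) : OW u).2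
    nlinarith [apply_nonneg u ((y : OW u) : K)]

theorem charP_OW (u : FinitePlace K) {l : ℕ} (hl : l.Prime) (hu : u (l : K) < 1) :
    CharP (ResidueField (OW u)) l := by
  rw [CharP.charP_iff_prime_eq_zero hl]
  have h : residue (OW u) (l : OW u) = 0 := by
    rw [residue_eq_zero_OW]
    have : (((l : ℕ) : OW u) : K) = (l : K) := by norm_cast
    rw [this]
    exact hu
  rwa [map_natCast] at h

theorem exists_place (K : Type) [Field K] [NumberField K] {l : ℕ} (hl : l.Prime) :
    ∃ u : FinitePlace K, u (l : K) < 1 := by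
  have hm : (Ideal.span {(l : ℤ)}).IsMaximal :=
    PrincipalIdealRing.isMaximal_of_irreducible (Nat.prime_iff_prime_int.1 hl).irreducible
  obtain ⟨Q, hQ, hQc⟩ := Ideal.exists_ideal_over_maximal_of_isIntegral (S := 𝓞 K)
    (Ideal.span {(l : ℤ)}) (by
      rw [(RingHom.injective_iff_ker_eq_bot _).1 (FaithfulSMul.algebraMap_injective ℤ (𝓞 K))]
      exact bot_le)
  have hlQ : (l : 𝓞 K) ∈ Q := by
    have h1 : (l : ℤ) ∈ Ideal.comap (algebraMap ℤ (𝓞 K)) Q := by
      rw [hQc]
      exact Ideal.mem_span_singleton_self _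
    rw [Ideal.mem_comap] at h1
    simpa using h1
  have hQ0 : Q ≠ ⊥ := by
    rintro rfl
    rw [Ideal.mem_bot] at hlQ
    exact hl.ne_zero (by exact_mod_cast hlQ)
  refine ⟨FinitePlace.mk ⟨Q, hQ.isPrime, hQ0⟩, ?_⟩
  have h2 := (place_lt_one_iff (FinitePlace.mk ⟨Q, hQ.isPrime, hQ0⟩) (l : 𝓞 K)).2 (by
    rw [FinitePlace.maximalIdeal_mk]
    exact hlQ)
  simpa using h2

end ow

section core

variable {O : Type} [CommRing O] [IsDomain O] [ValuationRing O] {K : Type} [Field K] [Algebra O K]
  [IsFractionRing O K]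

theorem bind_inj {q : ℕ} (hq : 0 < q) (F : Fin 3 → MvPolynomial (Fin 3) O)
    (hred : ∀ i, rd O (F i) = X i ^ q) :
    Function.Injective (bind₁ fun j => MvPolynomial.map (algebraMap O K) (F j)) := by
  have hinj : Function.Injective (algebraMap O K) := IsFractionRing.injective O K
  rw [injective_iff_map_eq_zero]
  intro P hP
  by_contra hP0
  obtain ⟨a, r, ha, h1, h2⟩ := scale (O := O) hP0
  have h3 : bind₁ (fun j => MvPolynomial.map (algebraMap O K) (F j))
      (MvPolynomial.map (algebraMap O K) r) = MvPolynomial.map (algebraMap O K) (bind₁ F r) := by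
    rw [map_bind₁]
  rw [h1, map_mul, bind₁_C_right, h3] at hP
  have h4 : MvPolynomial.map (algebraMap O K) (bind₁ F r) = 0 := by
    rcases mul_eq_zero.1 hP with h | h
    · exact absurd (C_eq_zero.1 h) ha
    · exact h
  have h5 : bind₁ F r = 0 := (map_injective _ hinj) (by rw [h4, map_zero])
  have h6 : rd O (bind₁ F r) = expand q (rd O r) := by
    have h7 : (fun i => rd O (F i)) = fun i => X i ^ q := funext hred
    have h8 : (expand q : MvPolynomial (Fin 3) (ResidueField O) →ₐ[ResidueField O] _) =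
        bind₁ (fun i => X i ^ q) := by
      apply MvPolynomial.algHom_ext
      intro i
      simp
    rw [rd, map_bind₁, h7, h8]
  rw [h5, map_zero] at h6
  apply h2
  exact (expand_injective hq) (by rw [← h6, map_zero])

end core

section nf

variable {K : Type} [Field K] [NumberField K]

theorem no_onPeriodic (hNC : NoCycleStatement) (u : FinitePlace K) {q : ℕ} (hq : 2 ≤ q)
    (hqk : (q : ResidueField (OW u)) ≠ 0) (w : OW u) (F : Fin 3 → MvPolynomial (Fin 3) (OW u))
    (hhom : ∀ i, (F i).IsHomogeneous q) (hred : ∀ i, rd (OW u) (F i) = X i ^ q)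
    (hdata : ∀ j : Fin 3, ∃ (F' : Fin 3 → MvPolynomial (Fin 3) (OW u))
      (M : Matrix (Fin 2) (Fin 2) (ResidueField (OW u))), VData q w (rot j F) F' M)
    {N : Type} [Field N] [Algebra K N] (x : Fin 3 → N) :
    ¬ OnPeriodic (fun i => MvPolynomial.map (algebraMap (OW u) K) (F i)) x := by
  rintro ⟨r, k, d, g, hk, hg, hgh, -, hdvd⟩
  obtain ⟨H, -, hper, hhomH, hirr, hd⟩ := Pool.DynLehmerChain.exists_chain
    (bind₁ fun i => MvPolynomial.map (algebraMap (OW u) K) (F i))
    (bind_inj (by omega) F hred) (by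
      rintro h ⟨n, hn⟩
      exact ⟨q * n, hn.aeval _ fun i => (hhom i).map _⟩) hg ⟨d, hgh⟩ k hk hdvd
  exact hNC (OW u) K q w F hq hqk hdata k H hk hper hhomH hirr hd

/-- integers inside the valuation ring -/
noncomputable def toO (u : FinitePlace K) : 𝓞 K →+* OW u :=
  (algebraMap (𝓞 K) K).codRestrict (OW u) fun a => int_le_one u a

theorem subtype_toO (u : FinitePlace K) :
    (algebraMap (OW u) K).comp (toO u) = algebraMap (𝓞 K) K := by
  ext a
  rfl

theorem map_toO (u : FinitePlace K) (P : MvPolynomial (Fin 3) (𝓞 K)) :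
    MvPolynomial.map (algebraMap (OW u) K) (MvPolynomial.map (toO u) P) =
      MvPolynomial.map (algebraMap (𝓞 K) K) P := by
  rw [map_map, subtype_toO]

theorem lehmer_core (hNC : NoCycleStatement) {p s : ℕ} (hp : p.Prime) (hs : 1 ≤ s)
    (F : Fin 3 → MvPolynomial (Fin 3) (𝓞 K)) (hF : ∀ i, (F i).IsHomogeneous (p ^ s))
    (v : FinitePlace K) (hv : v (p : K) < 1)
    (hvr : ∀ i, rd (OW v) (MvPolynomial.map (toO v) (F i)) = X i ^ (p ^ s))
    (u : FinitePlace K) (hqk : ((p ^ s : ℕ) : ResidueField (OW u)) ≠ 0) (w : OW u)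
    (hdata : ∀ j : Fin 3, ∃ (F' : Fin 3 → MvPolynomial (Fin 3) (OW u))
      (M : Matrix (Fin 2) (Fin 2) (ResidueField (OW u))),
      VData (p ^ s) w (rot j fun i => MvPolynomial.map (toO u) (F i)) F' M) :
    (∀ z : Fin 3 → AlgebraicClosure K,
      (∀ i, aeval z (MvPolynomial.map (algebraMap (𝓞 K) K) (F i)) = 0) → z = 0) ∧
    ∃ c : ℝ, 0 < c ∧ ∀ (L : Type) [Field L] [NumberField L] [Algebra K L],
      ∀ x : Fin 3 → L, x ≠ 0 →
      (¬ ∃ m n : ℕ, m ≠ n ∧ ∃ c : L, c ≠ 0 ∧
        (gAct (fun i => MvPolynomial.map (algebraMap (𝓞 K) K) (F i)) L)^[n] x =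
          c • (gAct (fun i => MvPolynomial.map (algebraMap (𝓞 K) K) (F i)) L)^[m] x) →
      ∃ h : ℝ, Filter.Tendsto (fun n : ℕ => Height.logHeight
        ((gAct (fun i => MvPolynomial.map (algebraMap (𝓞 K) K) (F i)) L)^[n] x) /
        (Module.finrank ℚ L : ℝ) / ((p ^ s : ℕ) : ℝ) ^ n) Filter.atTop (nhds h) ∧
        c / (Module.finrank K L : ℝ) ≤ h := by
  have hq2 : 2 ≤ p ^ s := hp.two_le.trans (Nat.le_self_pow (by omega) p)
  set P : Fin 3 → MvPolynomial (Fin 3) K :=
    fun i => MvPolynomial.map (algebraMap (𝓞 K) K) (F i) with hPdef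
  have hP : ∀ i, (P i).IsHomogeneous (p ^ s) := fun i => (hF i).map _
  have hcoef : ∀ i t, coeff t (P i) = ((coeff t (F i) : 𝓞 K) : K) := fun i t => coeff_map _ _ _
  have hint : ∀ i t, v (coeff t (P i)) ≤ 1 := fun i t => by
    rw [hcoef]
    exact int_le_one v _
  have hres : ∀ i t, residue (OW v) (toO v (coeff t (F i))) =
      coeff t (X i ^ (p ^ s) : MvPolynomial (Fin 3) (ResidueField (OW v))) := by
    intro i t
    rw [← hvr i, rd, coeff_map, coeff_map]
  have hred : ∀ i t, (∀ j, t ≠ Finsupp.single j (p ^ s)) → v (coeff t (P i)) < 1 := by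
    intro i t ht
    rw [hcoef]
    refine (residue_eq_zero_OW v (toO v (coeff t (F i)))).1 ?_
    rw [hres, coeff_X_pow, if_neg fun h => ht i h.symm]
  have hdet : v (Matrix.det (Matrix.of fun i j =>
      coeff (Finsupp.single j (p ^ s)) (P i))) = 1 := by
    set A : Matrix (Fin 3) (Fin 3) (OW v) := Matrix.of fun i j =>
      toO v (coeff (Finsupp.single j (p ^ s)) (F i)) with hA
    have h1 : Matrix.det (Matrix.of fun i j => coeff (Finsupp.single j (p ^ s)) (P i)) =
        (algebraMap (OW v) K) A.det := by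
      rw [RingHom.map_det]
      rfl
    have h2 : residue (OW v) A.det = 1 := by
      rw [RingHom.map_det]
      have : (residue (OW v)).mapMatrix A = 1 := by
        ext i j
        rw [RingHom.mapMatrix_apply, Matrix.map_apply, hA, Matrix.of_apply, hres, coeff_X_pow,
          Matrix.one_apply]
        congr 1
        rw [Finsupp.single_left_inj (by omega)]
      rw [this, Matrix.det_one]
    rw [h1]
    refine le_antisymm A.det.2 (not_lt.1 fun h => ?_)
    have h3 := (residue_eq_zero_OW v A.det).2 h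
    rw [h2] at h3
    exact one_ne_zero h3
  have hc : ∀ i j, bind₁ P (P i) * bind₁ P (P j) = bind₁ P (P j) * bind₁ P (P i) :=
    fun i j => mul_comm _ _
  have hz : ∀ z : Fin 3 → AlgebraicClosure K, (∀ i, aeval z (P i) = 0) → z = 0 := by
    obtain ⟨Φ, hΦP, hϖ0, hϖ, hunif⟩ := exists_GF v hp P hP hv hint hred hdet
    exact gno_common_zero hp Φ hϖ P hΦP
  refine ⟨hz, ?_⟩
  obtain ⟨c, hc0, H⟩ := plane_lehmer' hq2 P hP hz hp hs v P hP hv hint hred hdet hc
  refine ⟨c, hc0, fun L _ _ _ x hx hw => ?_⟩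
  obtain ⟨h, hlim, hle⟩ := H L x hx hw
  refine ⟨h, hlim, hle.resolve_right ?_⟩
  have hredu : ∀ i, rd (OW u) (MvPolynomial.map (toO u) (F i)) = X i ^ (p ^ s) := by
    intro i
    obtain ⟨F', M, hd⟩ := hdata 0
    have h1 := hd.redF i
    have h2 : rot 0 (fun i => MvPolynomial.map (toO u) (F i)) i =
        MvPolynomial.map (toO u) (F i) := by
      simp only [rot, add_zero, sub_zero]
      exact rename_id_apply _
    rwa [h2] at h1
  have h3 := no_onPeriodic hNC u hq2 hqk w (fun i => MvPolynomial.map (toO u) (F i))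
    (fun i => (hF i).map _) hredu hdata x
  have h4 : (fun i => MvPolynomial.map (algebraMap (OW u) K) (MvPolynomial.map (toO u) (F i))) =
      P := by
    funext i
    exact map_toO u (F i)
  rwa [h4] at h3

end nf

end Pool.DynLehmerFam
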